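import Pool.Agent.Helper25.FN.Spec

set_option autoImplicit false

namespace Pool.Agent.Helper56.FN.GR1

open MeasureTheory Set
open scoped ContDiff
open Pool.Agent.Helper25.FN
open Pool.Agent.Helper25.FB.Inj (Entire)

variable {n : ℕ}

theorem mv (f : V n → ℂ) (hf : Entire f) (z w : V n) :
    ‖f z‖ ^ 2 ≤ (2 * Real.pi)⁻¹ *
      ∫ θ in (0 : ℝ)..2 * Real.pi, ‖f (z + circleMap 0 1 θ • w)‖ ^ 2 := by
  have hf' : Differentiable ℂ f := hf
  let g : ℂ → ℂ := fun ζ => f (z + ζ • w) ^ 2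
  have hg : Differentiable ℂ g := by
    have h1 : Differentiable ℂ (fun ζ : ℂ => z + ζ • w) := by fun_prop
    exact (hf'.comp h1).pow 2
  have h := (hg.diffContOnCl (s := Metric.ball (0 : ℂ) |(1 : ℝ)|)).circleAverage
  have h0 : g 0 = f z ^ 2 := by simp [g]
  rw [h0, Real.circleAverage_def] at h
  have hnorm : ‖f z‖ ^ 2 = ‖(2 * Real.pi)⁻¹ • ∫ θ in (0 : ℝ)..2 * Real.pi, g (circleMap 0 1 θ)‖ := by
    rw [h, norm_pow]
  rw [hnorm, norm_smul, Real.norm_of_nonneg (by positivity)]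
  refine mul_le_mul_of_nonneg_left ?_ (by positivity)
  refine (intervalIntegral.norm_integral_le_integral_norm (by positivity)).trans (le_of_eq ?_)
  refine intervalIntegral.integral_congr fun θ _ => ?_
  show ‖f (z + circleMap 0 1 θ • w) ^ 2‖ = _
  rw [norm_pow]

theorem rot (F : V n → ℝ) (a : ℂ) (ha : ‖a‖ = 1) :
    ∫ w in Metric.closedBall (0 : V n) 1, F (a • w) = ∫ w in Metric.closedBall (0 : V n) 1, F w := by
  have hne : a ≠ 0 := by
    rintro rfl
    simp at ha
  have hmp : MeasurePreserving (fun w : V n => a • w) volume volume := by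
    let c : Circle := ⟨a, mem_sphere_zero_iff_norm.mpr ha⟩
    exact volume_preserving_pi (fun _ : Fin n => (rotation c).measurePreserving)
  have hemb : MeasurableEmbedding (fun w : V n => a • w) :=
    (Homeomorph.smulOfNeZero a hne).measurableEmbedding
  have h := hmp.setIntegral_preimage_emb hemb F (Metric.closedBall (0 : V n) 1)
  have hpre : (fun w : V n => a • w) ⁻¹' (Metric.closedBall (0 : V n) 1) =
      Metric.closedBall (0 : V n) 1 := by
    ext w
    simp only [Set.mem_preimage, mem_closedBall_zero_iff, norm_smul, ha, one_mul]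
  rw [hpre] at h
  exact h

theorem submean (f : V n → ℂ) (hf : Entire f) (z : V n) :
    ‖f z‖ ^ 2 * volume.real (Metric.closedBall (0 : V n) 1) ≤
      ∫ w in Metric.closedBall (0 : V n) 1, ‖f (z + w)‖ ^ 2 := by
  have hf' : Differentiable ℂ f := hf
  have hc : Continuous f := hf'.continuous
  let B := Metric.closedBall (0 : V n) 1
  let G : V n → ℝ → ℝ := fun w θ => ‖f (z + circleMap 0 1 θ • w)‖ ^ 2
  have hG : Continuous (Function.uncurry G) := by
    show Continuous (fun p : V n × ℝ => ‖f (z + circleMap 0 1 p.2 • p.1)‖ ^ 2)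
    have : Continuous (fun p : V n × ℝ => circleMap 0 1 p.2) := (continuous_circleMap 0 1).comp continuous_snd
    fun_prop
  have hint : Integrable (Function.uncurry G)
      ((volume.restrict B).prod (volume.restrict (Set.Ioc (0 : ℝ) (2 * Real.pi)))) := by
    rw [Measure.prod_restrict]
    have hK : IsCompact (B ×ˢ Set.Icc (0 : ℝ) (2 * Real.pi)) :=
      (isCompact_closedBall _ _).prod isCompact_Icc
    exact (hG.continuousOn.integrableOn_compact hK).mono_set
      (Set.prod_mono le_rfl Set.Ioc_subset_Icc_self)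
  have e0 : ‖f z‖ ^ 2 * volume.real B = ∫ _w in B, ‖f z‖ ^ 2 := by
    rw [setIntegral_const, smul_eq_mul, mul_comm]
  have hIoc : ∀ h : ℝ → ℝ, ∫ θ in (0 : ℝ)..2 * Real.pi, h θ =
      ∫ θ in Set.Ioc (0 : ℝ) (2 * Real.pi), h θ := fun h =>
    intervalIntegral.integral_of_le (by positivity)
  have e1 : ∫ _w in B, ‖f z‖ ^ 2 ≤
      ∫ w in B, (2 * Real.pi)⁻¹ * ∫ θ in Set.Ioc (0 : ℝ) (2 * Real.pi), G w θ := by
    refine setIntegral_mono_on ?_ ?_ measurableSet_closedBall ?_
    · exact integrableOn_const (isCompact_closedBall _ _).measure_lt_top.ne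
    · exact (hint.integral_prod_left).const_mul _
    · intro w _
      have := mv f hf z w
      rw [hIoc] at this
      exact this
  have e2 : ∫ w in B, (2 * Real.pi)⁻¹ * ∫ θ in Set.Ioc (0 : ℝ) (2 * Real.pi), G w θ =
      (2 * Real.pi)⁻¹ * ∫ θ in Set.Ioc (0 : ℝ) (2 * Real.pi), ∫ w in B, G w θ := by
    rw [integral_const_mul, integral_integral_swap hint]
  have e3 : ∫ θ in Set.Ioc (0 : ℝ) (2 * Real.pi), ∫ w in B, G w θ =
      ∫ _θ in Set.Ioc (0 : ℝ) (2 * Real.pi), ∫ w in B, ‖f (z + w)‖ ^ 2 := by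
    refine integral_congr_ae (Filter.Eventually.of_forall fun θ => ?_)
    exact rot (fun w => ‖f (z + w)‖ ^ 2) (circleMap 0 1 θ) (by simp [circleMap])
  rw [e0]
  refine e1.trans (le_of_eq ?_)
  rw [e2, e3, setIntegral_const, smul_eq_mul]
  have : volume.real (Set.Ioc (0 : ℝ) (2 * Real.pi)) = 2 * Real.pi := by
    rw [Measure.real, Real.volume_Ioc, sub_zero, ENNReal.toReal_ofReal (by positivity)]
  rw [this, ← mul_assoc, inv_mul_cancel₀ (by positivity), one_mul]

theorem nm_eq (z : V n) : nm z = ‖(WithLp.toLp 2 z : EuclideanSpace ℂ (Fin n))‖ := by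
  rw [EuclideanSpace.norm_eq]; rfl

theorem nm_nonneg (z : V n) : 0 ≤ nm z := Real.sqrt_nonneg _

theorem nm_add (z w : V n) : nm (z + w) ≤ nm z + nm w := by
  rw [nm_eq, nm_eq, nm_eq, WithLp.toLp_add]
  exact norm_add_le _ _

theorem nm_le (w : V n) (hw : ‖w‖ ≤ 1) : nm w ≤ √n := by
  refine Real.sqrt_le_sqrt ?_
  calc ∑ j, ‖w j‖ ^ 2 ≤ ∑ _j : Fin n, (1 : ℝ) := Finset.sum_le_sum fun j _ => by
        have h1 : ‖w j‖ ≤ 1 := (norm_le_pi_norm w j).trans hw
        have h0 : 0 ≤ ‖w j‖ := norm_nonneg _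
        nlinarith
    _ = n := by simp

theorem lip (Φ : V n → ℝ) (hΦ : ContDiff ℝ ∞ Φ) (hS : Sym 1 (fun z => (Φ z : ℂ))) :
    ∃ C : ℝ, 0 ≤ C ∧ ∀ z w, |Φ w - Φ z| ≤ C * ‖w - z‖ := by
  obtain ⟨C, hC⟩ := hS.2 1
  have hd : Differentiable ℝ (fun z => (Φ z : ℂ)) := hS.1.differentiable (by simp)
  have hb : ∀ z, ‖fderiv ℝ (fun z => (Φ z : ℂ)) z‖ ≤ C := by
    intro z
    have := hC z
    rw [norm_iteratedFDeriv_one] at this
    simpa using this
  have hC0 : 0 ≤ C := (norm_nonneg _).trans (hb 0)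
  refine ⟨C, hC0, fun z w => ?_⟩
  have := convex_univ.norm_image_sub_le_of_norm_fderiv_le (𝕜 := ℝ)
    (f := fun z => (Φ z : ℂ)) (C := C) (x := z) (y := w) (fun x _ => hd x) (fun x _ => hb x)
    (Set.mem_univ _) (Set.mem_univ _)
  simp only [← Complex.ofReal_sub, Complex.norm_real, Real.norm_eq_abs] at this
  exact this

theorem main : S_GR1 := by
  intro n P Φ hΦ hS f hf
  obtain ⟨hE, hI⟩ := hf
  refine ⟨hE, ?_⟩
  obtain ⟨C, hC0, hC⟩ := lip Φ hΦ hS
  have hf' : Differentiable ℂ f := hE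
  have hc : Continuous f := hf'.continuous
  set I := ∫ z, ‖f z‖ ^ 2 * den P Φ z with hIdef
  set v := volume.real (Metric.closedBall (0 : V n) 1) with hv
  have hvpos : 0 < v := by
    rw [hv, Measure.real, ENNReal.toReal_pos_iff]
    exact ⟨Metric.measure_closedBall_pos _ _ one_pos, (isCompact_closedBall _ _).measure_lt_top⟩
  have hden : ∀ y, wt Φ y ≤ (1 + nm y) ^ 2 * den P Φ y := by
    intro y
    have h1 : (1 : ℝ) ≤ 1 + nm y := by linarith [nm_nonneg y]
    have h0 : (0 : ℝ) < 1 + nm y := by linarith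
    have hw : 0 < wt Φ y := Real.exp_pos _
    have h2 : (1 + nm y) ^ (-2 : ℤ) ≤ (1 + nm y) ^ ((P.totalDegree : ℤ) - 2) :=
      zpow_le_zpow_right₀ h1 (by omega)
    have h3 : (1 + nm y) ^ (-2 : ℤ) ≤ ‖pv P y‖ ^ 2 * (1 + nm y) ^ (-(P.totalDegree : ℤ)) +
        (1 + nm y) ^ ((P.totalDegree : ℤ) - 2) := by
      have : 0 ≤ ‖pv P y‖ ^ 2 * (1 + nm y) ^ (-(P.totalDegree : ℤ)) := by positivity
      linarith
    have h4 : (1 + nm y) ^ 2 * (1 + nm y) ^ (-2 : ℤ) = 1 := by
      rw [← zpow_natCast, ← zpow_add₀ h0.ne']; norm_num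
    calc wt Φ y = ((1 + nm y) ^ 2 * (1 + nm y) ^ (-2 : ℤ)) * wt Φ y := by rw [h4, one_mul]
      _ ≤ ((1 + nm y) ^ 2 * (‖pv P y‖ ^ 2 * (1 + nm y) ^ (-(P.totalDegree : ℤ)) +
        (1 + nm y) ^ ((P.totalDegree : ℤ) - 2))) * wt Φ y := by gcongr
      _ = (1 + nm y) ^ 2 * den P Φ y := by unfold den; ring
  have hdpos : ∀ y, 0 ≤ den P Φ y := by
    intro y
    have h0 : (0 : ℝ) < 1 + nm y := by linarith [nm_nonneg y]
    have hw : 0 < wt Φ y := Real.exp_pos _
    unfold den
    positivity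
  -- the pointwise bound
  have hpt : ∀ z w : V n, ‖w‖ ≤ 1 → ‖f (z + w)‖ ^ 2 ≤
      ((1 + √n) ^ 2 * Real.exp (2 * C) * (1 + nm z) ^ 2 * Real.exp (2 * Φ z)) *
        (‖f (z + w)‖ ^ 2 * den P Φ (z + w)) := by
    intro z w hw
    have hA : 1 + nm (z + w) ≤ (1 + √n) * (1 + nm z) := by
      have h1 := nm_add z w
      have h2 := nm_le w hw
      have h3 := nm_nonneg z
      have h4 : 0 ≤ √(n : ℝ) := Real.sqrt_nonneg _
      nlinarith [mul_nonneg h4 h3]
    have hΦz : Φ (z + w) ≤ Φ z + C := by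
      have h1 := hC z (z + w)
      rw [add_sub_cancel_left] at h1
      have h2 : C * ‖w‖ ≤ C := by nlinarith
      linarith [le_abs_self (Φ (z + w) - Φ z)]
    have h1 : 1 ≤ Real.exp (2 * C) * Real.exp (2 * Φ z) * wt Φ (z + w) := by
      unfold wt
      rw [← Real.exp_add, ← Real.exp_add]
      apply Real.one_le_exp
      linarith
    have h2 : 1 ≤ Real.exp (2 * C) * Real.exp (2 * Φ z) *
        (((1 + √n) * (1 + nm z)) ^ 2 * den P Φ (z + w)) := by
      refine h1.trans ?_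
      refine mul_le_mul_of_nonneg_left ((hden (z + w)).trans ?_) (by positivity)
      refine mul_le_mul_of_nonneg_right ?_ (hdpos _)
      have h0 : (0 : ℝ) ≤ 1 + nm (z + w) := by linarith [nm_nonneg (z + w)]
      exact pow_le_pow_left₀ h0 hA 2
    have h3 : 0 ≤ ‖f (z + w)‖ ^ 2 := by positivity
    nlinarith [mul_le_mul_of_nonneg_left h2 h3]
  have hI0 : 0 ≤ I := integral_nonneg fun z => mul_nonneg (by positivity) (hdpos z)
  have key : ∀ z, ‖f z‖ ^ 2 * v ≤
      ((1 + √n) ^ 2 * Real.exp (2 * C) * (1 + nm z) ^ 2 * Real.exp (2 * Φ z)) * I := by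
    intro z
    have hIz : Integrable (fun w => ‖f (z + w)‖ ^ 2 * den P Φ (z + w)) :=
      Integrable.comp_add_left hI z
    refine (submean f hE z).trans ?_
    calc ∫ w in Metric.closedBall (0 : V n) 1, ‖f (z + w)‖ ^ 2
        ≤ ∫ w in Metric.closedBall (0 : V n) 1,
          ((1 + √n) ^ 2 * Real.exp (2 * C) * (1 + nm z) ^ 2 * Real.exp (2 * Φ z)) *
            (‖f (z + w)‖ ^ 2 * den P Φ (z + w)) := by
          refine setIntegral_mono_on ?_ ?_ measurableSet_closedBall ?_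
          · have : Continuous (fun w => ‖f (z + w)‖ ^ 2) := by fun_prop
            exact this.continuousOn.integrableOn_compact (isCompact_closedBall _ _)
          · exact (hIz.const_mul _).integrableOn
          · intro w hw
            exact hpt z w (mem_closedBall_zero_iff.mp hw)
      _ = ((1 + √n) ^ 2 * Real.exp (2 * C) * (1 + nm z) ^ 2 * Real.exp (2 * Φ z)) *
            ∫ w in Metric.closedBall (0 : V n) 1, ‖f (z + w)‖ ^ 2 * den P Φ (z + w) := by
          rw [integral_const_mul]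
      _ ≤ ((1 + √n) ^ 2 * Real.exp (2 * C) * (1 + nm z) ^ 2 * Real.exp (2 * Φ z)) *
            ∫ w, ‖f (z + w)‖ ^ 2 * den P Φ (z + w) := by
          refine mul_le_mul_of_nonneg_left ?_ (by positivity)
          exact setIntegral_le_integral hIz (Filter.Eventually.of_forall fun w =>
            mul_nonneg (by positivity) (hdpos _))
      _ = _ := by
          rw [hIdef, integral_add_left_eq_self (fun y => ‖f y‖ ^ 2 * den P Φ y) z]
  refine ⟨√((1 + √n) ^ 2 * Real.exp (2 * C) * I / v), fun z => ?_⟩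
  have h0 : (0 : ℝ) < 1 + nm z := by linarith [nm_nonneg z]
  rw [zpow_one]
  refine abs_le_of_sq_le_sq' ?_ (by positivity) |>.2
  rw [mul_pow, mul_pow, Real.sq_sqrt (by positivity), ← Real.exp_nat_mul]
  have h1 := key z
  rw [div_mul_eq_mul_div, div_mul_eq_mul_div, le_div_iff₀ hvpos]
  push_cast
  linarith

end Pool.Agent.Helper56.FN.GR1
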